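import Pool.Agent.Helper10.Bil.Link

set_option autoImplicit false

/-! piece DER-A for MP_190632_an -/

namespace Pool.Agent.Helper58.Bil

open Real Set Filter Topology

/-- the curve of parameters -/
def qcurve (x e t : ℝ) : QQ := (t, 0, x, e, 0)

lemma qcurve_contDiff (x e : ℝ) : ContDiff ℝ ((⊤ : ℕ∞) : WithTop ℕ∞) (qcurve x e) :=
  contDiff_id.prodMk (contDiff_const.prodMk (contDiff_const.prodMk
    (contDiff_const.prodMk contDiff_const)))

lemma qcurve_tendsto (x e : ℝ) : Tendsto (qcurve x e) (𝓝 0) (𝓝 (q0 x e)) :=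
  (qcurve_contDiff x e).continuous.tendsto' 0 _ rfl

lemma smAt_hasDeriv_curve {f : QQ → ℝ} {x e : ℝ} (h : SmAt f (q0 x e)) :
    HasDerivAt (fun t => f (qcurve x e t)) (deriv (fun t => f (qcurve x e t)) 0) 0 := by
  have h1 : DifferentiableAt ℝ f (qcurve x e 0) :=
    (h.self_of_nhds : ContDiffAt ℝ _ f (q0 x e)).differentiableAt (by simp)
  have h2 : DifferentiableAt ℝ (qcurve x e) 0 :=
    ((qcurve_contDiff x e).differentiable (by simp)) 0
  have h3 : DifferentiableAt ℝ (fun t => f (qcurve x e t)) 0 := h1.comp 0 h2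
  exact h3.hasDerivAt

lemma PP_zero' (x Y : ℝ) : PP 0 x Y = 1 := by
  have hgg : gg x ≠ 0 := by
    unfold gg
    have h1 : 0 < expNegInvGlue (10 * x) + expNegInvGlue (1 - 10 * x) := by
      by_cases hx : 0 < x
      · have := expNegInvGlue.pos_of_pos (show 0 < 10 * x by linarith)
        have := expNegInvGlue.nonneg (1 - 10 * x)
        linarith
      · have := expNegInvGlue.pos_of_pos (show 0 < 1 - 10 * x by linarith)
        have := expNegInvGlue.nonneg (10 * x)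
        linarith
    positivity
  unfold PP
  simp [hgg]

structure DerData (α x e : ℝ) (D1' D2' D3' D4' e2' X' e4' : ℝ) : Prop where
  c1 : -(tan α * D1') - (1 / tan α) ^ 2 / 2 + e * cos α = 0
  c2 : -(tan (al2 α) * D2') - (1 / tan (al2 α)) ^ 2 / 2 + e2 α (q0 x e) * cos (al2 α) = 0
  c3 : -(tan (al2 α) * D3') - (-(1 / tan (al2 α))) ^ 2 / 2 + e2 α (q0 x e) * cos (al2 α) = 0
  c4 : -(tan α * D4') - (-(1 / tan α)) ^ 2 / 2 + e * cos α = 0
  cX : X' = D1' + D2' + D3' + D4'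
  s1 : (- 2 * tan α * (1 / tan α) * D1' - (1 / tan α) ^ 3 / 3 + 2 * e * (1 / tan α) * cos α)
    + (2 * e2' * sin (al2 α) - 2 * tan (al2 α) * (1 / tan (al2 α)) * D2'
      - (1 / tan (al2 α)) ^ 3 / 3 + 2 * e2 α (q0 x e) * (1 / tan (al2 α)) * cos (al2 α))
    = -(2 * (D1' + D2'))
  s2 : (2 * e2' * sin (al2 α) - 2 * tan (al2 α) * (-(1 / tan (al2 α))) * D3'
      - (-(1 / tan (al2 α))) ^ 3 / 3
      + 2 * e2 α (q0 x e) * (-(1 / tan (al2 α))) * cos (al2 α))
    + (2 * e4' * sin α - 2 * tan α * (-(1 / tan α)) * D4' - (-(1 / tan α)) ^ 3 / 3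
      + 2 * e * (-(1 / tan α)) * cos α)
    = 2 * (D3' + D4')

lemma sin_al2 (α : ℝ) : sin (al2 α) = cos α := by
  unfold al2; rw [Real.sin_pi_div_two_sub]

lemma cos_al2 (α : ℝ) : cos (al2 α) = sin α := by
  unfold al2; rw [Real.cos_pi_div_two_sub]

/-- the algebra -/
lemma der_algebra {α : ℝ} (hs : 0 < sin α) (hc : 0 < cos α) {x e D1' D2' D3' D4' e2' X' e4' : ℝ}
    (h : DerData α x e D1' D2' D3' D4' e2' X' e4')
    (ve2 : 2 * sin (al2 α) * e2 α (q0 x e) = -(1 / tan α + 1 / tan (al2 α)) - 2 * sin α * e) :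
    X' = -(2 * sin α * ((1 / tan (al2 α)) ^ 2 - (1 / tan α) ^ 2) * e
        + (1 / tan (al2 α)) ^ 2 * (1 / tan α + 1 / tan (al2 α))
        + (1 / tan α) ^ 3 + (1 / tan (al2 α)) ^ 3) ∧
    e4' = -(gam α * e + (2 / (2 * sin α)) *
        ((1 / tan (al2 α)) ^ 2 * (1 / tan α + 1 / tan (al2 α))
          + ((1 / tan α) ^ 3 + (1 / tan (al2 α)) ^ 3) / 3)) := by
  obtain ⟨c1, c2, c3, c4, cX, s1, s2⟩ := h
  unfold gam
  have hS0 : sin α ≠ 0 := hs.ne'
  have hC0 : cos α ≠ 0 := hc.ne'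
  have hT1 : tan α * (1 / tan α) = 1 := by
    have : tan α ≠ 0 := by
      rw [Real.tan_eq_sin_div_cos]; exact div_ne_zero hS0 hC0
    field_simp
  have hT2 : tan (al2 α) * (1 / tan (al2 α)) = 1 := by
    have : tan (al2 α) ≠ 0 := by
      rw [Real.tan_eq_sin_div_cos, sin_al2, cos_al2]; exact div_ne_zero hC0 hS0
    field_simp
  have hAC : cos α = (1 / tan α) * sin α := by
    rw [Real.tan_eq_sin_div_cos]; field_simp
  have hBC : cos (al2 α) = (1 / tan (al2 α)) * sin (al2 α) := by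
    rw [Real.tan_eq_sin_div_cos, sin_al2, cos_al2]; field_simp
  have hS2 : sin (al2 α) ≠ 0 := by rw [sin_al2]; exact hC0
  generalize hE : e2 α (q0 x e) = E at *
  generalize tan α = T1 at *
  generalize tan (al2 α) = T2 at *
  generalize cos α = C at *
  generalize cos (al2 α) = C2 at *
  generalize sin (al2 α) = S2 at *
  generalize sin α = S at *
  generalize 1 / T1 = A at *
  generalize 1 / T2 = B at *
  subst hAC
  subst hBC
  have d1 : D1' = A ^ 2 * S * e - A ^ 3 / 2 := by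
    linear_combination (-A) * c1 - D1' * hT1
  have d2 : D2' = B ^ 2 * S2 * E - B ^ 3 / 2 := by
    linear_combination (-B) * c2 - D2' * hT2
  have d3 : D3' = B ^ 2 * S2 * E - B ^ 3 / 2 := by
    linear_combination (-B) * c3 - D3' * hT2
  have d4 : D4' = A ^ 2 * S * e - A ^ 3 / 2 := by
    linear_combination (-A) * c4 - D4' * hT1
  have hX : X' = -(2 * S * (B ^ 2 - A ^ 2) * e + B ^ 2 * (A + B) + A ^ 3 + B ^ 3) := by
    rw [cX, d1, d2, d3, d4]
    linear_combination B ^ 2 * ve2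
  refine ⟨hX, ?_⟩
  have s1' : 2 * e2' * S2 = (A ^ 3 + B ^ 3) / 3 - 2 * A ^ 2 * S * e - 2 * B ^ 2 * S2 * E := by
    linear_combination s1 + 2 * D1' * hT1 + 2 * D2' * hT2
  have s2' : 2 * e4' * S = - 2 * e2' * S2 - (A ^ 3 + B ^ 3) / 3 + 2 * B ^ 2 * S2 * E
      + 2 * A ^ 2 * S * e := by
    linear_combination s2 - 2 * D3' * hT2 - 2 * D4' * hT1
  have h3 : 2 * S * e4' = 2 * S * (-(2 * (B ^ 2 - A ^ 2) * e + 2 / (2 * S) *
      (B ^ 2 * (A + B) + (A ^ 3 + B ^ 3) / 3))) := by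
    have h5 : 2 * S * (2 / (2 * S)) = 2 := by field_simp
    linear_combination s2' - s1' + 2 * B ^ 2 * ve2
      + (B ^ 2 * (A + B) + (A ^ 3 + B ^ 3) / 3) * h5
  have h4 : (2 * S) ≠ 0 := by positivity
  exact mul_left_cancel₀ h4 h3

lemma hasDerivAt_unique_const {f : ℝ → ℝ} {f' c : ℝ} (h : HasDerivAt f f' 0)
    (hc : ∀ᶠ t in 𝓝 (0 : ℝ), f t = c) : f' = 0 := by
  have h1 : HasDerivAt f 0 0 := (hasDerivAt_const (0 : ℝ) c).congr_of_eventuallyEq hc
  exact h.unique h1

theorem der_data {α : ℝ} (hα1 : 0 < α) (hα2 : α < π / 2) (x e : ℝ) (L : LinkBase α x e) :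
    DerData α x e (deriv (fun t => D1 α (qcurve x e t)) 0) (deriv (fun t => D2 α (qcurve x e t)) 0)
      (deriv (fun t => D3 α (qcurve x e t)) 0) (deriv (fun t => D4 α (qcurve x e t)) 0)
      (deriv (fun t => e2 α (qcurve x e t)) 0) (deriv (fun t => XX α (qcurve x e t)) 0)
      (deriv (fun t => e4 α (qcurve x e t)) 0) := by
  have hs : 0 < sin α := Real.sin_pos_of_pos_of_lt_pi hα1 (by linarith [Real.pi_pos])
  have hc : 0 < cos α := Real.cos_pos_of_mem_Ioo ⟨by linarith [Real.pi_pos], hα2⟩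
  have hs2 : 0 < sin (al2 α) := by rw [sin_al2]; exact hc
  have hc2 : 0 < cos (al2 α) := by rw [cos_al2]; exact hs
  have dD1 := smAt_hasDeriv_curve L.sD1
  have dD2 := smAt_hasDeriv_curve L.sD2
  have dD3 := smAt_hasDeriv_curve L.sD3
  have dD4 := smAt_hasDeriv_curve L.sD4
  have de2 := smAt_hasDeriv_curve L.se2
  have dX := smAt_hasDeriv_curve L.sX
  have de4 := smAt_hasDeriv_curve L.se4
  have dh2 := smAt_hasDeriv_curve L.sh2
  -- relations along the curve
  have hrel := (qcurve_tendsto x e).eventually L.rel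
  have hsin : ∀ᶠ t in 𝓝 (0 : ℝ), sin (al2 α + t * D2 α (qcurve x e t)) ≠ 0 := by
    have hcont : ContinuousAt (fun t => sin (al2 α + t * D2 α (qcurve x e t))) 0 :=
      Real.continuous_sin.continuousAt.comp
        (continuousAt_const.add (continuousAt_id.mul dD2.continuousAt))
    have : sin (al2 α + (0 : ℝ) * D2 α (qcurve x e 0)) ≠ 0 := by
      rw [zero_mul, add_zero]; exact hs2.ne'
    exact hcont.eventually_ne this
  have hsin' : ∀ᶠ t in 𝓝 (0 : ℝ), sin (α + t * D4 α (qcurve x e t)) ≠ 0 := by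
    have hcont : ContinuousAt (fun t => sin (α + t * D4 α (qcurve x e t))) 0 :=
      Real.continuous_sin.continuousAt.comp
        (continuousAt_const.add (continuousAt_id.mul dD4.continuousAt))
    have : sin (α + (0 : ℝ) * D4 α (qcurve x e 0)) ≠ 0 := by
      rw [zero_mul, add_zero]; exact hs.ne'
    exact hcont.eventually_ne this
  have hall : ∀ᶠ t in 𝓝 (0 : ℝ),
      cc α t (D1 α (qcurve x e t)) e = -1 ∧
      cc (al2 α) t (D2 α (qcurve x e t)) (e2 α (qcurve x e t)) = -1 ∧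
      cc (al2 α) t (D3 α (qcurve x e t)) (e2 α (qcurve x e t)) = 1 ∧
      cc α t (D4 α (qcurve x e t)) (e4 α (qcurve x e t)) = 1 ∧
      XX α (qcurve x e t) = D1 α (qcurve x e t) + D2 α (qcurve x e t) + D3 α (qcurve x e t)
        + D4 α (qcurve x e t) ∧
      sg α t (D1 α (qcurve x e t)) e + sg (al2 α) t (D2 α (qcurve x e t)) (e2 α (qcurve x e t))
        = -(2 * (D1 α (qcurve x e t) + D2 α (qcurve x e t))) ∧
      sg (al2 α) t (D3 α (qcurve x e t)) (e2 α (qcurve x e t))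
        + sg α t (D4 α (qcurve x e t)) (e4 α (qcurve x e t))
        = 2 * (D3 α (qcurve x e t) + D4 α (qcurve x e t)) := by
    filter_upwards [hrel, hsin, hsin'] with t ⟨r, r'⟩ hs1 hs2
    have q1 : (qcurve x e t).1 = t := rfl
    have q2 : (qcurve x e t).2.1 = 0 := rfl
    have q3 : (qcurve x e t).2.2.1 = x := rfl
    have q4 : (qcurve x e t).2.2.2.1 = e := rfl
    have q5 : (qcurve x e t).2.2.2.2 = 0 := rfl
    rw [q1, q2, q3, q4, q5] at r
    rw [q1, q2, q3] at r'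
    obtain ⟨a1, a2, a3, a4, a5, a6⟩ := r
    obtain ⟨b1, b2, b3, b4, b5, b6⟩ := r'
    have hPP : PP 0 x = fun _ => 1 := by ext Y; exact PP_zero' x Y
    rw [hPP] at a1 a4 a6 b1 b4 b6
    simp only [zero_mul, sub_zero, add_zero, zero_add, zero_sub, mul_one, neg_mul, one_mul,
      intervalIntegral.integral_const, smul_eq_mul] at a1 a2 a3 a4 a5 a6 b1 b2 b3 b4 b5 b6
    have hh2 : h2 α (qcurve x e t) = 0 := by
      have : h2 α (qcurve x e t) * sin (al2 α + t * D2 α (qcurve x e t)) = 0 := by linarith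
      exact (mul_eq_zero.1 this).resolve_right hs1
    rw [hh2] at a3 a4 b1 b2
    simp only [zero_mul, sub_zero, add_zero] at a3 a4 b1 b2
    refine ⟨by linarith, by linarith, by linarith, ?_, ?_, ?_, ?_⟩
    · linarith
    · rw [b5, a5]
    · rw [a6]; ring
    · rw [b6]; ring
  have hcα : cos α ≠ 0 := hc.ne'
  have hcα2 : cos (al2 α) ≠ 0 := hc2.ne'
  have ve2q : e2 α (qcurve x e 0) = e2 α (q0 x e) := rfl
  have vD1 : D1 α (qcurve x e 0) = 1 / tan α := L.vD1
  have vD2 : D2 α (qcurve x e 0) = 1 / tan (al2 α) := L.vD2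
  have vD3 : D3 α (qcurve x e 0) = -(1 / tan (al2 α)) := L.vD3
  have vD4 : D4 α (qcurve x e 0) = -(1 / tan α) := L.vD4
  have hT1 : tan α * (1 / tan α) = 1 := by
    have : tan α ≠ 0 := by
      rw [Real.tan_eq_sin_div_cos]; exact div_ne_zero hs.ne' hc.ne'
    field_simp
  have hT2 : tan (al2 α) * (1 / tan (al2 α)) = 1 := by
    have : tan (al2 α) ≠ 0 := by
      rw [Real.tan_eq_sin_div_cos]; exact div_ne_zero hs2.ne' hc2.ne'
    field_simp
  -- the value of e4 at the base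
  have ve4 : e4 α (qcurve x e 0) = e := by
    have h0 := hall.self_of_nhds
    obtain ⟨-, -, -, -, -, h6, h7⟩ := h0
    rw [sg_zero, sg_zero, vD1, vD2] at h6
    rw [sg_zero, sg_zero, vD3, vD4] at h7
    have h8 : 2 * sin α * (e4 α (qcurve x e 0) - e) = 0 := by
      linear_combination h7 - h6 + 0 * hT1
    have h9 : e4 α (qcurve x e 0) - e = 0 := by
      rcases mul_eq_zero.1 h8 with h | h
      · exfalso; linarith
      · exact h
    linarith
  refine ⟨?_, ?_, ?_, ?_, ?_, ?_, ?_⟩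
  · have h := cc_hasDerivAt α hcα dD1 (continuousAt_const (y := e))
    have := hasDerivAt_unique_const h (hall.mono fun t ht => ht.1)
    rwa [vD1] at this
  · have h := cc_hasDerivAt (al2 α) hcα2 dD2 de2.continuousAt
    have := hasDerivAt_unique_const h (hall.mono fun t ht => ht.2.1)
    rwa [vD2] at this
  · have h := cc_hasDerivAt (al2 α) hcα2 dD3 de2.continuousAt
    have := hasDerivAt_unique_const h (hall.mono fun t ht => ht.2.2.1)
    rwa [vD3] at this
  · have h := cc_hasDerivAt α hcα dD4 de4.continuousAt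
    have := hasDerivAt_unique_const h (hall.mono fun t ht => ht.2.2.2.1)
    rwa [vD4, ve4] at this
  · have h := ((dD1.add dD2).add dD3).add dD4
    have h2 : HasDerivAt (fun t => XX α (qcurve x e t)) _ 0 :=
      h.congr_of_eventuallyEq (hall.mono fun t ht => ht.2.2.2.2.1)
    exact dX.unique h2
  · have h := (sg_hasDerivAt α hcα dD1 (hasDerivAt_const (0 : ℝ) e)).add
      (sg_hasDerivAt (al2 α) hcα2 dD2 de2)
    have h2 := ((dD1.add dD2).const_mul 2).neg
    have h3 := h2.congr_of_eventuallyEq (hall.mono fun t ht => ht.2.2.2.2.2.1)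
    have h4 := h.unique h3
    rw [vD1, vD2, ve2q] at h4
    linear_combination h4
  · have h := (sg_hasDerivAt (al2 α) hcα2 dD3 de2).add (sg_hasDerivAt α hcα dD4 de4)
    have h2 := (dD3.add dD4).const_mul 2
    have h3 := h2.congr_of_eventuallyEq (hall.mono fun t ht => ht.2.2.2.2.2.2)
    have h4 := h.unique h3
    rw [vD3, vD4, ve4, ve2q] at h4
    linear_combination h4

theorem der_both {α : ℝ} (h1 : 0 < α) (h2 : α < π / 2) (x e : ℝ) (L : LinkBase α x e) :
    deriv (fun t => XX α (t, 0, x, e, 0)) 0 =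
      -(2 * sin α * ((1 / tan (al2 α)) ^ 2 - (1 / tan α) ^ 2) * e
        + (1 / tan (al2 α)) ^ 2 * (1 / tan α + 1 / tan (al2 α))
        + (1 / tan α) ^ 3 + (1 / tan (al2 α)) ^ 3) ∧
    deriv (fun t => e4 α (t, 0, x, e, 0)) 0 =
      -(gam α * e + (2 / (2 * sin α)) *
        ((1 / tan (al2 α)) ^ 2 * (1 / tan α + 1 / tan (al2 α))
          + ((1 / tan α) ^ 3 + (1 / tan (al2 α)) ^ 3) / 3)) :=
  der_algebra (Real.sin_pos_of_pos_of_lt_pi h1 (by linarith [Real.pi_pos]))
    (Real.cos_pos_of_mem_Ioo ⟨by linarith [Real.pi_pos], h2⟩) (der_data h1 h2 x e L) L.ve2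

theorem der_XX {α : ℝ} (h1 : 0 < α) (h2 : α < π / 2) (x e : ℝ) :
    deriv (fun t => XX α (t, 0, x, e, 0)) 0 =
      -(2 * sin α * ((1 / tan (al2 α)) ^ 2 - (1 / tan α) ^ 2) * e
        + (1 / tan (al2 α)) ^ 2 * (1 / tan α + 1 / tan (al2 α))
        + (1 / tan α) ^ 3 + (1 / tan (al2 α)) ^ 3) :=
  (der_both h1 h2 x e (link_base h1 h2 x e)).1

theorem der_e4 {α : ℝ} (h1 : 0 < α) (h2 : α < π / 2) (x e : ℝ) :
    deriv (fun t => e4 α (t, 0, x, e, 0)) 0 =
      -(gam α * e + (2 / (2 * sin α)) *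
        ((1 / tan (al2 α)) ^ 2 * (1 / tan α + 1 / tan (al2 α))
          + ((1 / tan α) ^ 3 + (1 / tan (al2 α)) ^ 3) / 3)) :=
  (der_both h1 h2 x e (link_base h1 h2 x e)).2

end Pool.Agent.Helper58.Bil
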